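import Mathlib

namespace Pool.Agent.Results.MP_9c82d2_co.No
open Set

lemma rat_dense (p : EuclideanSpace ℝ (Fin 2)) : Dense {q | ¬ Irrational (dist p q)} := by
  intro y
  by_cases h : y = p
  · apply subset_closure
    simp [h]
  · rw [Metric.mem_closure_iff]
    intro ε hε
    have hp : 0 < ‖y - p‖ := norm_pos_iff.2 (sub_ne_zero.2 h)
    obtain ⟨r, hr1, hr2⟩ := exists_rat_btwn (show ‖y - p‖ < ‖y - p‖ + ε by linarith)
    refine ⟨p + ((r : ℝ) / ‖y - p‖) • (y - p), ?_, ?_⟩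
    · simp only [mem_setOf_eq, dist_self_add_right, norm_smul, Real.norm_eq_abs]
      rw [abs_of_pos (div_pos (hp.trans hr1) hp), div_mul_cancel₀ _ hp.ne']
      exact Rat.not_irrational r
    · have : y - (p + ((r : ℝ) / ‖y - p‖) • (y - p)) = (1 - (r : ℝ) / ‖y - p‖) • (y - p) := by
        module
      rw [dist_eq_norm, this, norm_smul, Real.norm_eq_abs, abs_sub_comm,
        abs_of_pos (sub_pos.2 ((one_lt_div hp).2 hr1)), sub_mul, div_mul_cancel₀ _ hp.ne']
      linarith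

lemma exists_set : ∃ D : Set (EuclideanSpace ℝ (Fin 2)), D.Countable ∧ Dense D ∧
    ∀ S ⊆ D, Dense S → ∃ p ∈ S, ∃ q ∈ S, p ≠ q ∧ ¬ Irrational (dist p q) := by
  let e : ℕ ≃ ℤ := (Denumerable.eqv ℤ).symm
  let V : ℕ → Set (EuclideanSpace ℝ (Fin 2)) := fun n => {x | (e n : ℝ) < x 0 ∧ x 0 < e n + 1}
  have Vo : ∀ n, IsOpen (V n) := fun n => by
    have hc : Continuous (fun x : EuclideanSpace ℝ (Fin 2) => x 0) := by fun_prop
    exact (isOpen_Ioo (a := (e n : ℝ)) (b := (e n : ℝ) + 1)).preimage hc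
  have Vn : ∀ n, (V n).Nonempty := fun n =>
    ⟨EuclideanSpace.single 0 ((e n : ℝ) + 1 / 2), by simp [V]; norm_num⟩
  have Vd : ∀ m n x, x ∈ V m → x ∈ V n → m = n := by
    intro m n x h1 h2
    have a1 : (e m : ℝ) < e n + 1 := h1.1.trans h2.2
    have a2 : (e n : ℝ) < e m + 1 := h2.1.trans h1.2
    have a1' : e m < e n + 1 := by exact_mod_cast a1
    have a2' : e n < e m + 1 := by exact_mod_cast a2
    exact e.injective (by omega)
  have VD : Dense (⋃ n, V n) := by
    have ho : IsOpenMap (EuclideanSpace.proj (𝕜 := ℝ) (0 : Fin 2)) :=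
      ContinuousLinearMap.isOpenMap _ (fun t => ⟨EuclideanSpace.single 0 t, by simp⟩)
    refine (dense_irrational.preimage ho).mono fun x hx => ?_
    have hx' : Irrational (x 0) := hx
    refine mem_iUnion.2 ⟨e.symm ⌊x 0⌋, ?_⟩
    simp only [V, Equiv.apply_symm_apply, mem_setOf_eq]
    exact ⟨lt_of_le_of_ne (Int.floor_le _) (hx'.ne_int _).symm, Int.lt_floor_add_one _⟩
  have ha : ∀ (p : EuclideanSpace ℝ (Fin 2)) (n : ℕ), ∃ a : ℕ → EuclideanSpace ℝ (Fin 2),
      (∀ k, a k ∈ V n ∧ ¬ Irrational (dist p (a k))) ∧ V n ⊆ closure (range a) := by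
    intro p n
    obtain ⟨t, t2, t1, t3⟩ := (TopologicalSpace.IsSeparable.of_separableSpace
      (V n ∩ {q | ¬ Irrational (dist p q)})).exists_countable_dense_subset
    have hc : V n ⊆ closure t := by
      have := (rat_dense p).open_subset_closure_inter (Vo n)
      exact this.trans (closure_minimal t3 isClosed_closure)
    have tn : t.Nonempty := closure_nonempty_iff.1 ((Vn n).mono hc)
    obtain ⟨a, rfl⟩ := t1.exists_eq_range tn
    exact ⟨a, fun k => t2 (mem_range_self k), hc⟩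
  choose a a1 a2 using ha
  let P : ℕ → EuclideanSpace ℝ (Fin 2) := fun n => Nat.strongRecOn n (fun n ih =>
    match n, ih with
    | 0, _ => 0
    | n + 1, ih => a (ih (Nat.unpair n).1 (Nat.lt_succ_of_le (Nat.unpair_left_le n)))
        (Nat.unpair n).1 (Nat.unpair n).2)
  have P0 : P 0 = 0 := by simp only [P]; rw [Nat.strongRecOn_eq]
  have PS : ∀ n, P (n + 1) = a (P (Nat.unpair n).1) (Nat.unpair n).1 (Nat.unpair n).2 := by
    intro n; simp only [P]; rw [Nat.strongRecOn_eq]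
  refine ⟨range P, countable_range P, ?_, ?_⟩
  · have : (⋃ n, V n) ⊆ closure (range P) := by
      refine iUnion_subset fun n => (a2 (P n) n).trans (closure_mono ?_)
      rintro _ ⟨k, rfl⟩
      exact ⟨Nat.pair n k + 1, by rw [PS, Nat.unpair_pair]⟩
    exact dense_closure.1 (VD.mono this)
  · intro S hS hd
    obtain ⟨p, hp⟩ := hd.nonempty
    obtain ⟨n, rfl⟩ := hS hp
    have hne : (V n \ {P n}).Nonempty := by
      obtain ⟨x, hx, hx'⟩ := (dense_compl_singleton (P n)).inter_open_nonempty _ (Vo n) (Vn n)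
      exact ⟨x, hx, hx'⟩
    obtain ⟨q, ⟨q1, q2⟩, q3⟩ := hd.inter_open_nonempty _ ((Vo n).sdiff isClosed_singleton) hne
    refine ⟨_, hp, q, q3, fun h => q2 h.symm, ?_⟩
    obtain ⟨m, rfl⟩ := hS q3
    cases m with
    | zero =>
      exfalso
      rw [P0] at q1
      have b1 : (e n : ℝ) < 0 := q1.1
      have b2 : (0 : ℝ) < e n + 1 := q1.2
      have b1' : e n < 0 := by exact_mod_cast b1
      have b2' : 0 < e n + 1 := by exact_mod_cast b2
      omega
    | succ m =>
      rw [PS] at q1 ⊢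
      have := Vd _ _ _ q1 (a1 _ _ _).1
      rw [← this]
      exact (a1 _ _ _).2

theorem result : ∃ x : ℕ → EuclideanSpace ℝ (Fin 2), Function.Injective x ∧ DenseRange x ∧
    ∀ i : ℕ → ℕ, StrictMono i → DenseRange (fun k => x (i k)) →
      ∃ k l, k ≠ l ∧ ¬ Irrational (dist (x (i k)) (x (i l))) := by
  obtain ⟨D, h1, h2, h3⟩ := exists_set
  have hinf : D.Infinite := by
    intro hf
    have : D = univ := by rw [← hf.isClosed.closure_eq]; exact h2.closure_eq
    exact infinite_univ (this ▸ hf)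
  obtain ⟨hD⟩ := countable_infinite_iff_nonempty_denumerable.1 ⟨h1, hinf⟩
  let f := (Denumerable.eqv D).symm
  refine ⟨fun n => f n, Subtype.val_injective.comp f.injective, ?_, ?_⟩
  · refine h2.mono fun y hy => ⟨f.symm ⟨y, hy⟩, by simp⟩
  · intro i _ hd
    obtain ⟨_, ⟨k, rfl⟩, _, ⟨l, rfl⟩, hne, hr⟩ := h3 _ (by rintro _ ⟨k, rfl⟩; exact (f (i k)).2) hd
    exact ⟨k, l, fun h => hne (by rw [h]), hr⟩

end Pool.Agent.Results.MP_9c82d2_co.No
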